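import Mathlib

namespace Pool.Agent.H.MP_13a5bb_an

open Set Filter Topology Metric

theorem omt {X Y : Type} [NormedAddCommGroup X] [CompleteSpace X] [Module ℂ X]
    [ContinuousSMul ℂ X] [NormedAddCommGroup Y] [CompleteSpace Y] [Module ℂ Y]
    [ContinuousSMul ℂ Y] (T : X →ₗ[ℂ] Y) (hT : Continuous T) (su : Function.Surjective T) :
    IsOpenMap T := by
  have s1 : ∀ ε > 0, ∃ δ > 0, ∀ y, ‖y‖ < δ → ∀ η > 0, ∃ x, ‖x‖ < ε ∧ ‖y - T x‖ < η := by
    intro ε ε0
    obtain ⟨n, y, hy⟩ := nonempty_interior_of_iUnion_of_closed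
      (f := fun n : ℕ => (fun y => ((n : ℂ) + 1)⁻¹ • y) ⁻¹' closure (T '' ball 0 (ε / 2)))
      (fun _ => isClosed_closure.preimage (by fun_prop)) (eq_univ_of_forall fun y => by
        obtain ⟨x, rfl⟩ := su y
        have := (tendsto_one_div_add_atTop_nhds_zero_nat (𝕜 := ℂ)).smul_const x
        rw [zero_smul] at this
        obtain ⟨n, hn⟩ := (this.eventually (ball_mem_nhds 0 (half_pos ε0))).exists
        exact mem_iUnion.2 ⟨n, subset_closure ⟨_, hn, by simp⟩⟩)
    have n0 : (n : ℂ) + 1 ≠ 0 := Nat.cast_add_one_ne_zero n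
    have : ContinuousAt (fun v => y + ((n : ℂ) + 1) • v) 0 := by fun_prop
    obtain ⟨δ, δ0, h⟩ := Metric.mem_nhds_iff.1 (this.preimage_mem_nhds
      (by simpa using mem_interior_iff_mem_nhds.1 hy))
    refine ⟨δ, δ0, fun v hv η η0 => ?_⟩
    have h2 := map_mem_closure₂ (f := fun u v : Y => u - v) (u := T '' ball 0 ε)
      (s := T '' ball 0 (ε / 2)) (t := T '' ball 0 (ε / 2)) (by fun_prop)
      (h (mem_ball_zero_iff.2 hv)) (mem_preimage.1 (interior_subset hy)) (by
        rintro _ ⟨a, ha, rfl⟩ _ ⟨b, hb, rfl⟩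
        refine ⟨a - b, ?_, map_sub _ _ _⟩
        rw [mem_ball_zero_iff] at *
        linarith [norm_sub_le a b])
    simp only [smul_add, add_sub_cancel_left, inv_smul_smul₀ n0] at h2
    obtain ⟨_, ⟨x, hx, rfl⟩, h3⟩ := Metric.mem_closure_iff.1 h2 η η0
    exact ⟨x, mem_ball_zero_iff.1 hx, by rwa [← dist_eq_norm]⟩
  refine IsTopologicalAddGroup.isOpenMap_iff_nhds_zero.2 fun U hU => ?_
  obtain ⟨ε, ε0, hε⟩ := Metric.nhds_basis_closedBall.mem_iff.1 (mem_map.1 hU)
  choose δ δ0 h using fun j : ℕ => s1 (ε / 2 / 2 ^ j) (by positivity)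
  have : ∀ j y, ∃ x, ‖y‖ < δ j → ‖x‖ < ε / 2 / 2 ^ j ∧
      ‖y - T x‖ < min (δ (j + 1)) ((1 / 2) ^ j) := fun j y => by
    by_cases c : ‖y‖ < δ j
    · exact (h j y c _ (lt_min (δ0 _) (by positivity))).imp fun b hb _ => hb
    · exact ⟨0, fun d => absurd d c⟩
  choose g hg using this
  refine mem_of_superset (ball_mem_nhds 0 (δ0 0)) fun y hy => ?_
  let A : ℕ → Y := fun n => Nat.rec y (fun j y => y - T (g j y)) n
  have a1 : ∀ j, ‖A j‖ < δ j := fun j => by
    induction j with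
    | zero => exact mem_ball_zero_iff.1 hy
    | succ j ih => exact (hg j _ ih).2.trans_le (min_le_left _ _)
  have a2 : ∀ n, ∑ i ∈ Finset.range n, T (g i (A i)) = y - A n := fun n => by
    induction n with
    | zero => simp [A]
    | succ n ih =>
      rw [Finset.sum_range_succ, ih, show A (n + 1) = A n - T (g n (A n)) from rfl]; abel
  have b := fun n => (hg n _ (a1 n)).1.le
  have s := Summable.of_norm_bounded (summable_geometric_two' ε) b
  have t : Tendsto A atTop (𝓝 0) := (tendsto_add_atTop_iff_nat 1).1 (squeeze_zero_norm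
    (fun n => ((hg n _ (a1 n)).2.trans_le (min_le_right _ _)).le)
    (tendsto_pow_atTop_nhds_zero_of_lt_one (by norm_num) (by norm_num)))
  have e : T (∑' i, g i (A i)) = y := tendsto_nhds_unique
    (s.hasSum.map T hT).tendsto_sum_nat (by simpa [a2] using t.const_sub y)
  exact e ▸ hε (mem_closedBall_zero_iff.2 (tsum_of_norm_bounded (hasSum_geometric_two' ε) b))

open TopologicalSpace

variable {A : Type} [AddCommGroup A]

lemma klee [TopologicalSpace A] [IsTopologicalAddGroup A] [IsCompletelyMetrizableSpace A]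
    (x : ℕ → A) (hx : ∀ V ∈ 𝓝 (0 : A), ∃ N, ∀ i ≥ N, ∀ j ≥ N, x i - x j ∈ V) :
    ∃ f : ℕ → ℕ, Tendsto f atTop atTop ∧ ∃ a, Tendsto (x ∘ f) atTop (𝓝 a) := by
  let _ := upgradeIsCompletelyMetrizable A
  choose N hN using fun (z : A) (k : ℕ) => hx _ (ContinuousAt.preimage_mem_nhds
    (f := fun v => z + v) (by fun_prop) (by simpa using ball_mem_nhds z (pow_pos one_half_pos k)))
  let P : ℕ → A × ℕ := fun n => Nat.rec (0, N 0 0)
    (fun k p => (x p.2 - p.1, max (p.2 + 1) (N (x p.2 - p.1) (k + 1)))) n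
  have p1 : ∀ k, (P (k + 1)).1 = x (P k).2 - (P k).1 := fun _ => rfl
  have p2 : ∀ k, N (P k).1 k ≤ (P k).2 := fun k => by
    cases k
    · rfl
    · exact le_max_right _ _
  have p3 : StrictMono fun k => (P k).2 := strictMono_nat_of_lt_succ fun k =>
    Nat.lt_of_succ_le (le_max_left _ _)
  have p4 : ∀ c, ∃ a, Tendsto (fun j => (P (2 * j + c)).1) atTop (𝓝 a) := fun c =>
    cauchySeq_tendsto_of_complete (cauchySeq_of_le_geometric (1 / 2) 1 (by norm_num) fun j => by
      have := hN _ _ _ ((p2 (2 * j + c)).trans (p3.monotone (Nat.le_succ _))) _ (p2 _)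
      rw [show 2 * (j + 1) + c = 2 * j + c + 1 + 1 by ring, p1 (2 * j + c + 1), p1 (2 * j + c),
        one_mul, dist_comm,
        sub_sub_eq_add_sub, add_comm, add_sub_assoc]
      rw [← inv_pow, ← one_div] at this
      exact (mem_ball.1 this).le.trans (pow_le_pow_of_le_one (by norm_num) (by norm_num)
        (by omega)))
  obtain ⟨a, ha⟩ := p4 0
  obtain ⟨b, hb⟩ := p4 1
  refine ⟨fun j => (P (2 * j)).2, p3.tendsto_atTop.comp (tendsto_id.const_mul_atTop' two_pos),
    a + b, (ha.add hb).congr fun j => by simp [p1]⟩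

def Sy (_ : AddGroupNorm A) : Type := A

noncomputable instance (ν : AddGroupNorm A) : NormedAddCommGroup (Sy ν) := ν.toNormedAddCommGroup

instance [m : Module ℂ A] (ν : AddGroupNorm A) : Module ℂ (Sy ν) := m

def sy (ν : AddGroupNorm A) : A ≃+ Sy ν := AddEquiv.refl A

theorem exn [TopologicalSpace A] [IsTopologicalAddGroup A] [IsCompletelyMetrizableSpace A] :
    ∃ ν : AddGroupNorm A, Continuous (sy ν) ∧ Continuous (sy ν).symm ∧ CompleteSpace (Sy ν) := by
  obtain ⟨ρ, r1, r2, r3, r4, r5⟩ : ∃ ρ : A → A → ℝ, (∀ x, ρ x x = 0) ∧ (∀ x y, ρ x y = ρ y x) ∧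
      (∀ x y z, ρ x z ≤ ρ x y + ρ y z) ∧ (∀ ε > 0, ∃ V ∈ 𝓝 (0 : A), ∀ x ∈ V, ∀ z, ρ z (x + z) < ε) ∧
      ∀ V ∈ 𝓝 (0 : A), ∃ ε > 0, ∀ x, ρ 0 x < ε → x ∈ V := by
    let _ := IsTopologicalAddGroup.rightUniformSpace A
    have : IsUniformAddGroup A := isUniformAddGroup_of_addCommGroup
    have : (uniformity A).IsCountablyGenerated := IsUniformAddGroup.uniformity_countably_generated
    obtain ⟨I, hI⟩ := UniformSpace.metrizable_uniformity A
    have hb := @Metric.uniformity_basis_dist A I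
    rw [hI, uniformity_eq_comap_nhds_zero] at hb
    refine ⟨I.dist, I.dist_self, I.dist_comm, I.dist_triangle, fun ε ε0 => ?_, fun V hV => ?_⟩
    · obtain ⟨V, hV, h⟩ := mem_comap.1 (hb.mem_of_mem ε0)
      exact ⟨V, hV, fun x hx z => @h (z, x + z) (by simpa using hx)⟩
    · obtain ⟨ε, ε0, h⟩ := hb.mem_iff.1 (preimage_mem_comap hV)
      exact ⟨ε, ε0, fun x hx => by simpa using @h (0, x) hx⟩
  have r0 : ∀ x y, 0 ≤ ρ x y := fun x y => by linarith [r3 x y x, r1 x, r2 x y]
  have bd : ∀ x, BddAbove (range fun z => min (ρ z (x + z)) 1) := fun x =>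
    ⟨1, forall_mem_range.2 fun _ => min_le_right _ _⟩
  have n1 : ∀ x, ⨆ z, min (ρ z (-x + z)) 1 ≤ ⨆ z, min (ρ z (x + z)) 1 := fun x =>
    ciSup_le fun z => le_ciSup_of_le (bd x) (-x + z) (by rw [r2, add_neg_cancel_left])
  have n2 : ∀ V ∈ 𝓝 (0 : A), ∃ ε > 0, ∀ x, ⨆ z, min (ρ z (x + z)) 1 < ε → x ∈ V := fun V hV => by
    obtain ⟨ε, ε0, h⟩ := r5 V hV
    refine ⟨min ε 1, by positivity, fun x hx => h x ?_⟩
    have := (le_ciSup (bd x) 0).trans_lt hx
    rw [add_zero] at this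
    exact lt_of_not_ge fun l => this.not_ge (min_le_min_right _ l)
  let ν : AddGroupNorm A :=
    { toFun x := ⨆ z, min (ρ z (x + z)) 1
      map_zero' := by simp [r1]
      add_le' x y := ciSup_le fun z => le_trans (by
        have := r3 z (y + z) (x + (y + z))
        have := r0 z (y + z)
        have := r0 (y + z) (x + (y + z))
        rw [add_assoc]
        grind) (add_le_add (le_ciSup (bd x) (y + z)) (le_ciSup (bd y) z))
      neg' x := (n1 x).antisymm (by simpa using n1 (-x))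
      eq_zero_of_map_eq_zero' x hx := by_contra fun n =>
        (n2 _ (isOpen_compl_singleton.mem_nhds (Ne.symm n))).elim fun ε h =>
          h.2 x (hx.trans_lt h.1) rfl }
  have c1 : Continuous (sy ν) := continuous_of_continuousAt_zero _ (by
    rw [ContinuousAt, map_zero, Metric.tendsto_nhds]
    intro ε ε0
    obtain ⟨V, hV, h⟩ := r4 _ (half_pos ε0)
    refine mem_of_superset hV fun x hx => ?_
    rw [mem_ofPred_eq, dist_zero_right]
    exact (ciSup_le fun z => (min_le_left _ _).trans (h x hx z).le).trans_lt (half_lt_self ε0))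
  refine ⟨ν, c1, continuous_of_continuousAt_zero _ fun V hV => ?_,
    Metric.complete_of_cauchySeq_tendsto fun x hx => ?_⟩
  · obtain ⟨ε, ε0, h⟩ := n2 V (by simpa using hV)
    exact mem_of_superset (ball_mem_nhds (0 : Sy ν) ε0) fun x hx =>
      h x (mem_ball_zero_iff (E := Sy ν).1 hx)
  · obtain ⟨f, hf, a, ha⟩ := klee (A := A) x fun V hV => by
      obtain ⟨ε, ε0, h⟩ := n2 V hV
      exact (Metric.cauchySeq_iff.1 hx ε ε0).imp fun N hN i hi j hj =>
        h _ ((dist_eq_norm (x i) (x j)).symm.trans_lt (hN i hi j hj))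
    exact ⟨_, tendsto_nhds_of_cauchySeq_of_subseq hx hf ((c1.tendsto a).comp ha)⟩

end Pool.Agent.H.MP_13a5bb_an
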