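import Pool.Agent.H.MP_13a5bb_an.B

namespace Pool.Agent.H.MP_13a5bb_an

open Set Filter Topology TopologicalSpace MvPowerSeries

lemma pack {A : Type} [CommRing A] [Algebra ℂ A] [TopologicalSpace A] [IsTopologicalRing A]
    [ContinuousSMul ℂ A] [IsCompletelyMetrizableSpace A] :
    ∃ ν : AddGroupNorm A, Continuous (sy ν) ∧ Continuous (sy ν).symm ∧ CompleteSpace (Sy ν) ∧
      ContinuousSMul ℂ (Sy ν) ∧ ∀ a : A, ∃ L : Sy ν →L[ℂ] Sy ν, ∀ b : A, L b = a * b := by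
  obtain ⟨ν, h1, h2, h3⟩ := exn (A := A)
  exact ⟨ν, h1, h2, h3, ⟨h1.comp (continuous_fst.smul (h2.comp continuous_snd))⟩, fun a =>
    ⟨⟨LinearMap.mulLeft ℂ a, h1.comp ((continuous_const_mul a).comp h2)⟩, fun _ => rfl⟩⟩

theorem fin {σ : Type} [Fintype σ] [DecidableEq σ] [Nonempty σ]
    (S : Subalgebra ℂ (MvPowerSeries σ ℂ))
    (hS : ∀ p : MvPolynomial σ ℂ, (p : MvPowerSeries σ ℂ) ∈ S) (t₁ t₂ : TopologicalSpace S)
    (a1 : @IsTopologicalRing S t₁ _) (a2 : @ContinuousSMul ℂ S _ _ t₁)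
    (a3 : @IsCompletelyMetrizableSpace S t₁)
    (a4 : ∀ n : σ →₀ ℕ, @Continuous S ℂ t₁ _ fun a => coeff n (a : MvPowerSeries σ ℂ))
    (b1 : @IsTopologicalRing S t₂ _) (b2 : @ContinuousSMul ℂ S _ _ t₂)
    (b3 : @IsCompletelyMetrizableSpace S t₂) : t₁ = t₂ := by
  obtain ⟨ν, h1, h2, h3, h4, h5⟩ := @pack S _ _ t₁ a1 a2 a3
  obtain ⟨ν', k1, k2, k3, k4, k5⟩ := @pack S _ _ t₂ b1 b2 b3
  obtain ⟨c1, c2⟩ := main (E := Sy ν) (E' := Sy ν') S.val.toLinearMap Subtype.val_injective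
    (LinearEquiv.refl ℂ S) (fun J => ⟨⟨_, hS (.monomial J 1)⟩, MvPolynomial.coe_monomial J 1⟩)
    (fun J => @Continuous.comp _ _ _ _ t₁ _ _ _ (a4 J) h2)
    (fun a => (h5 a).imp fun L h b => congrArg Subtype.val (h b))
    (fun a => (k5 a).imp fun L h b => congrArg Subtype.val (h b))
  exact le_antisymm
    (continuous_id_iff_le.1 (@Continuous.comp _ _ _ t₁ _ t₂ _ _ k2
      (@Continuous.comp _ _ _ t₁ _ _ _ _ c2 h1)))
    (continuous_id_iff_le.1 (@Continuous.comp _ _ _ t₂ _ t₁ _ _ h2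
      (@Continuous.comp _ _ _ t₂ _ _ _ _ c1 k1)))

end Pool.Agent.H.MP_13a5bb_an
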